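import Pool.Agent.H949.CX.Final

/-!
# MP_8afce0_pr, Q2: with equal Malthusian parameters both colours coexist

The configuration model on the `n + 1` vertices `Fin (n + 1)`: the degrees `d` are independent with
law `μD` (law `Measure.pi fun _ : Fin (n + 1) => μD`), and `fixParity d` adds one half-edge to the
last vertex if the sum is odd. `cmLaw2 κ (fixParity d)` is the law of the uniform pairing of the
half-edges (`Mt`: involutions without fixed points), of the independent pairs (red length, blue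
length) with law `κ` carried by the edges (an edge is a pair `s(h, h')` of half-edges), and of the
ordered pair (red source, blue source), uniform among the pairs of distinct vertices. `PP μD κ n E`
is the probability of the event `E`.

* `IsOutcome vtx σ (len ω) a b t col` says that `t`, `col` are the colouring times and final colours
  of the competition for some way of breaking ties (a vertex takes the colour that reaches it first,
  keeps it and transmits only that colour; red crosses the edge `e` in time `(ω e).1`, blue in time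
  `(ω e).2`). The theorem covers every rule for breaking ties.
* `inGiant d`: both sources lie in one and the same component of largest size (`InA`, `Cn`, `cc`).
* `noCoex δ d`: for some outcome the red or the blue vertices are fewer than `δ (n + 1)`.
* `coex δ d`: for every outcome there are at least `δ (n + 1)` red and `δ (n + 1)` blue vertices.

`κ` is any law on `ℝ × ℝ` with marginals `μR` and `μB`; the model of the problem, in which the red
and blue lengths of an edge are independent, is `κ = μR.prod μB`.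
-/

open MeasureTheory Finset ProbabilityTheory Filter Topology
open scoped ENNReal

namespace Pool.Agent.Results.MP_8afce0_pr.EqualSpeedCoexistence

open Pool.Agent.H949.CM Pool.Agent.H949.CX

/-- `P(D > x) = L(x) x ^ (-(τ - 1))` for all large `x`, where `L` is slowly varying at infinity
and `τ > 3`. -/
def PowerTail (μD : Measure ℕ) : Prop :=
  ∃ (L : ℝ → ℝ) (τ : ℝ), 3 < τ ∧
    (∀ a : ℝ, 0 < a → Tendsto (fun x => L (a * x) / L x) atTop (𝓝 1)) ∧
    ∀ᶠ x : ℝ in atTop, μD {k : ℕ | x < (k : ℝ)} = ENNReal.ofReal (L x * x ^ (-(τ - 1)))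

theorem moment_cases {μD : Measure ℕ} [IsProbabilityMeasure μD]
    (hD : PowerTail μD ∨ ∃ η : ℝ, 0 < η ∧ ∫⁻ k, ENNReal.ofReal ((k : ℝ) ^ (2 + η)) ∂μD < ⊤) :
    ∃ η : ℝ, 0 < η ∧ η ≤ 1 ∧ ∫⁻ k, ENNReal.ofReal ((k : ℝ) ^ (2 + η)) ∂μD < ⊤ := by
  rcases hD with ⟨L, τ, hτ, hL, htail⟩ | ⟨η, hη, hm⟩
  · exact moment_of_tail μD L τ hτ hL htail
  · refine ⟨min η 1, lt_min hη one_pos, min_le_right _ _, lt_of_le_of_lt ?_ hm⟩
    apply lintegral_mono
    intro k
    apply ENNReal.ofReal_le_ofReal
    rcases Nat.eq_zero_or_pos k with h0 | h0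
    · rw [h0, Nat.cast_zero]
      have h1 : 0 < min η 1 := lt_min hη one_pos
      rw [Real.zero_rpow (by linarith), Real.zero_rpow (by linarith)]
    · apply Real.rpow_le_rpow_of_exponent_le (by exact_mod_cast h0)
      have := min_le_left η 1
      linarith

/-- The Malthusian equation, in the form used in the proof. -/
theorem malthus {κ : Measure (ℝ × ℝ)} [IsProbabilityMeasure κ] {μ : Measure ℝ}
    [IsProbabilityMeasure μ] (c : Bool) (hκ : κ.map (pr c) = μ) (h0 : μ (Set.Iic 0) = 0)
    {ν α : ℝ} (hν : 1 < ν) (hα : 0 < α) (heq : ν * ∫ x, Real.exp (-(α * x)) ∂μ = 1) :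
    (∀ᵐ w ∂κ, 0 < pr c w) ∧ ∫⁻ w, ex α (pr c w) ∂κ = (ENNReal.ofReal ν)⁻¹ := by
  have hae : ∀ᵐ x ∂μ, 0 < x := by
    rw [ae_iff]
    have : {x : ℝ | ¬ 0 < x} = Set.Iic 0 := by
      ext x; simp
    rw [this]; exact h0
  refine ⟨?_, ?_⟩
  · rw [← hκ] at hae
    exact ae_of_ae_map (measurable_pr c).aemeasurable hae
  · have h1 : ∫⁻ w, ex α (pr c w) ∂κ = ∫⁻ x, ex α x ∂μ := by
      rw [← hκ, lintegral_map (measurable_ex α) (measurable_pr c)]
    have hmeas : Measurable (fun x : ℝ => Real.exp (-(α * x))) := by fun_prop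
    have hint : Integrable (fun x : ℝ => Real.exp (-(α * x))) μ := by
      refine Integrable.of_bound hmeas.aestronglyMeasurable 1 ?_
      filter_upwards [hae] with x hx
      rw [Real.norm_eq_abs, abs_of_nonneg (Real.exp_pos _).le, Real.exp_le_one_iff]
      have := mul_pos hα hx
      linarith
    have h2 : ∫⁻ x, ex α x ∂μ = ENNReal.ofReal (∫ x, Real.exp (-(α * x)) ∂μ) := by
      rw [ofReal_integral_eq_lintegral_ofReal hint
        (Eventually.of_forall fun x => (Real.exp_pos _).le)]
      rfl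
    have h3 : ∫ x, Real.exp (-(α * x)) ∂μ = ν⁻¹ := by
      field_simp
      linarith
    rw [h1, h2, h3, ENNReal.ofReal_inv_of_pos (by linarith)]

theorem PP_le_one (μD : Measure ℕ) [IsProbabilityMeasure μD] (κ : Measure (ℝ × ℝ))
    [IsProbabilityMeasure κ] (n : ℕ) (E : ∀ d : Fin (n + 1) → ℕ, Set (Conf d)) :
    PP μD κ n E ≤ 1 := by
  unfold PP
  calc _ ≤ ∫⁻ _, (1 : ℝ≥0∞) ∂(Measure.pi fun _ : Fin (n + 1) => μD) :=
        lintegral_mono (fun d => cmLaw2_le_one κ _ _)
    _ = 1 := by rw [lintegral_one, measure_univ]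

theorem PP_mono (μD : Measure ℕ) [IsProbabilityMeasure μD] (κ : Measure (ℝ × ℝ))
    [IsProbabilityMeasure κ] (n : ℕ) {E F : ∀ d : Fin (n + 1) → ℕ, Set (Conf d)}
    (h : ∀ d, E d ⊆ F d) : PP μD κ n E ≤ PP μD κ n F := by
  unfold PP
  exact lintegral_mono (fun d => measure_mono (h _))

theorem PP_union (μD : Measure ℕ) [IsProbabilityMeasure μD] (κ : Measure (ℝ × ℝ))
    [IsProbabilityMeasure κ] (n : ℕ) {E F G : ∀ d : Fin (n + 1) → ℕ, Set (Conf d)}
    (h : ∀ d, E d ⊆ F d ∪ G d) : PP μD κ n E ≤ PP μD κ n F + PP μD κ n G := by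
  unfold PP
  rw [← lintegral_add_left (fun s _ => meas_deg _)]
  exact lintegral_mono (fun d => le_trans (measure_mono (h _)) (measure_union_le _ _))

theorem result (μD : Measure ℕ) [IsProbabilityMeasure μD]
    (hD : PowerTail μD ∨ ∃ η : ℝ, 0 < η ∧ ∫⁻ k, ENNReal.ofReal ((k : ℝ) ^ (2 + η)) ∂μD < ⊤)
    (ν : ℝ) (hν : ν = (∫ k, (k : ℝ) * ((k : ℝ) - 1) ∂μD) / ∫ k, (k : ℝ) ∂μD) (hν1 : 1 < ν)
    (μR μB : Measure ℝ) [IsProbabilityMeasure μR] [IsProbabilityMeasure μB]
    (hR : μR (Set.Iic 0) = 0) (hB : μB (Set.Iic 0) = 0)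
    (α : ℝ) (hα : 0 < α) (hαR : ν * ∫ x, Real.exp (-(α * x)) ∂μR = 1)
    (hαB : ν * ∫ x, Real.exp (-(α * x)) ∂μB = 1)
    (κ : Measure (ℝ × ℝ)) (hκR : κ.map Prod.fst = μR) (hκB : κ.map Prod.snd = μB) :
    (∀ n : ℕ, 1 ≤ n → ∀ d : Fin (n + 1) → ℕ, IsProbabilityMeasure (cmLaw2 κ (fixParity d))) ∧
    (∀ (n : ℕ) (d : Fin (n + 1) → ℕ) (σ : Mt (HalfEdge d)) (ω : Sym2 (HalfEdge d) → ℝ × ℝ)
      (a b : Fin (n + 1)), ∃ t col, IsOutcome vtx σ (len ω) a b t col) ∧
    (∀ ε : ℝ, 0 < ε → ∃ δ : ℝ, 0 < δ ∧ ∀ᶠ n : ℕ in atTop, 0 < PP μD κ n inGiant ∧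
      PP μD κ n (fun d => inGiant d ∩ noCoex δ d) ≤ ENNReal.ofReal ε * PP μD κ n inGiant) ∧
    Tendsto (fun δ : ℝ => liminf (fun n : ℕ =>
      PP μD κ n (fun d => inGiant d ∩ coex δ d) / PP μD κ n inGiant) atTop) (𝓝[>] 0) (𝓝 1) := by
  have hκp : IsProbabilityMeasure κ := by
    constructor
    have h1 : κ.map Prod.fst Set.univ = 1 := by rw [hκR]; exact measure_univ
    rw [Measure.map_apply measurable_fst MeasurableSet.univ, Set.preimage_univ] at h1
    exact h1
  have hmr := malthus (κ := κ) (μ := μR) true hκR hR hν1 hα hαR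
  have hmb := malthus (κ := κ) (μ := μB) false hκB hB hν1 hα hαB
  obtain ⟨η, hη0, hη1, hmom⟩ := moment_cases hD
  have key := coex_general (μD := μD) (κ := κ) hη0 hη1 hmom hν hν1 hα
    (fun c => by cases c; exacts [hmb.1, hmr.1]) (fun c => by cases c; exacts [hmb.2, hmr.2])
  refine ⟨fun n hn d => cmLaw2_prob hn κ _ (even_fixParity d),
    fun n d σ ω a b => exists_outcome vtx σ (len ω) a b, key, ?_⟩
  rw [tendsto_order]
  constructor
  · intro x hx
    -- choose `ε` with `x < 1 - ε`
    have hxt : x ≠ ⊤ := ne_top_of_lt hx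
    have hx1 : x.toReal < 1 := by
      have := (ENNReal.toReal_lt_toReal hxt ENNReal.one_ne_top).2 hx
      simpa using this
    set ε : ℝ := (1 - x.toReal) / 2 with hε
    have hε0 : 0 < ε := by rw [hε]; linarith
    have hε1 : ε < 1 := by
      have := ENNReal.toReal_nonneg (a := x)
      rw [hε]; linarith
    obtain ⟨δ0, hδ0, hev⟩ := key ε hε0
    filter_upwards [Ioc_mem_nhdsGT hδ0] with δ hδ
    have hlow : ∀ᶠ n : ℕ in atTop, ENNReal.ofReal (1 - ε) ≤
        PP μD κ n (fun d => inGiant d ∩ coex δ d) / PP μD κ n inGiant := by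
      filter_upwards [hev] with n hn
      obtain ⟨hn1, hn2⟩ := hn
      have hPt : PP μD κ n inGiant ≠ ⊤ :=
        ne_top_of_le_ne_top ENNReal.one_ne_top (PP_le_one μD κ n _)
      have h1 : PP μD κ n inGiant ≤ PP μD κ n (fun d => inGiant d ∩ coex δ d) +
          PP μD κ n (fun d => inGiant d ∩ noCoex δ0 d) := by
        apply PP_union
        intro d x hxd
        by_cases hc : x ∈ coex δ d
        · exact Or.inl ⟨hxd, hc⟩
        · right
          refine ⟨hxd, ?_⟩
          unfold coex at hc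
          rw [Set.mem_ofPred_eq] at hc
          push Not at hc
          obtain ⟨t, col, hO, hbad⟩ := hc
          refine ⟨t, col, hO, ?_⟩
          have hle : δ * ((n : ℝ) + 1) ≤ δ0 * ((n : ℝ) + 1) := by
            have := hδ.2
            gcongr
          by_cases hr : δ * ((n : ℝ) + 1) ≤
              ((univ.filter (fun v => col v = some true)).card : ℝ)
          · right
            exact lt_of_lt_of_le (hbad hr) hle
          · left
            exact lt_of_lt_of_le (not_le.1 hr) hle
      have h2 : PP μD κ n inGiant ≤ PP μD κ n (fun d => inGiant d ∩ coex δ d) +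
          ENNReal.ofReal ε * PP μD κ n inGiant :=
        le_trans h1 (add_le_add (le_refl _) hn2)
      rw [ENNReal.le_div_iff_mul_le (Or.inl hn1.ne') (Or.inl hPt)]
      have h3 : ENNReal.ofReal (1 - ε) * PP μD κ n inGiant +
          ENNReal.ofReal ε * PP μD κ n inGiant = PP μD κ n inGiant := by
        rw [← add_mul, ← ENNReal.ofReal_add (by linarith) hε0.le]
        simp
      have h4 : ENNReal.ofReal (1 - ε) * PP μD κ n inGiant +
          ENNReal.ofReal ε * PP μD κ n inGiant ≤
          PP μD κ n (fun d => inGiant d ∩ coex δ d) +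
          ENNReal.ofReal ε * PP μD κ n inGiant := by
        rw [h3]; exact h2
      exact (ENNReal.add_le_add_iff_right
        (ENNReal.mul_ne_top ENNReal.ofReal_ne_top hPt)).1 h4
    have h5 : ENNReal.ofReal (1 - ε) ≤ liminf (fun n : ℕ =>
        PP μD κ n (fun d => inGiant d ∩ coex δ d) / PP μD κ n inGiant) atTop :=
      le_liminf_of_le (by isBoundedDefault) hlow
    refine lt_of_lt_of_le ?_ h5
    rw [← ENNReal.ofReal_toReal hxt]
    rw [ENNReal.ofReal_lt_ofReal_iff (by linarith)]
    rw [hε]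
    linarith
  · intro x hx
    refine Eventually.of_forall (fun δ => lt_of_le_of_lt ?_ hx)
    have h1 : ∀ n : ℕ, PP μD κ n (fun d => inGiant d ∩ coex δ d) / PP μD κ n inGiant ≤ 1 := by
      intro n
      exact ENNReal.div_le_of_le_mul (by
        rw [one_mul]
        exact PP_mono μD κ n (fun d => Set.inter_subset_left))
    calc liminf (fun n : ℕ =>
          PP μD κ n (fun d => inGiant d ∩ coex δ d) / PP μD κ n inGiant) atTop
        ≤ liminf (fun _ : ℕ => (1 : ℝ≥0∞)) atTop :=
          liminf_le_liminf (Eventually.of_forall h1)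
      _ = 1 := by simp

end Pool.Agent.Results.MP_8afce0_pr.EqualSpeedCoexistence
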